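import Pool.Agent.Work.MP_223b32_es.Interface

/-! # PSYM: symmetry of the bits -/

namespace Pool.Agent.Work.ES

open Finset Polynomial Module

namespace PSYM

theorem add_pow_card (F K : Type) [Field F] [Fintype F] [Field K] [Algebra F K] (x y : K) (r : ℕ) :
    (x + y) ^ (Fintype.card F ^ r) = x ^ (Fintype.card F ^ r) + y ^ (Fintype.card F ^ r) := by
  induction r with
  | zero => simp
  | succ r ih =>
    have h := map_add (FiniteField.frobeniusAlgHom F K) (x ^ Fintype.card F ^ r) (y ^ Fintype.card F ^ r)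
    simp only [FiniteField.frobeniusAlgHom_apply] at h
    rw [pow_succ, pow_mul, pow_mul, pow_mul, ih, h]

theorem qc_pow_odd {K : Type} [Field K] [Fintype K] [DecidableEq K] (x : K) (m : ℕ) (hm : Odd m) :
    quadraticChar K (x ^ m) = quadraticChar K x := by
  rw [map_pow]
  by_cases hx : x = 0
  · rw [hx, MulChar.map_zero, zero_pow (by rcases hm with ⟨k, hk⟩; omega)]
  · rcases quadraticChar_dichotomy hx with h | h
    · rw [h, one_pow]
    · rw [h, hm.neg_one_pow]

theorem mod3_pow {q : ℕ} (hq : q % 6 = 1) (r : ℕ) : 3 ∣ q ^ r - 1 := by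
  have h1 : q ≡ 1 [MOD 3] := by
    unfold Nat.ModEq
    omega
  have h2 : q ^ r ≡ 1 [MOD 3] := by simpa using h1.pow r
  exact (Nat.modEq_iff_dvd' (Nat.one_le_pow _ _ (by omega))).1 h2.symm

end PSYM

open PSYM

theorem stmt_PSYM : Stmt_PSYM := by
  intro F K _ _ _ _ _ _ hq w hw r hr hr3
  set q := Fintype.card F with hqdef
  set n := Module.finrank F K with hn
  have hcard : Fintype.card K = q ^ n := by
    rw [hqdef, hn]
    exact Module.card_eq_pow_finrank
  set R := 3 * n - r with hR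
  have hRr : R + r = 3 * n := by omega
  have hq1 : 1 ≤ q := by omega
  -- the product
  have hprod : Aw F w R ^ (q ^ r) * Aw F w r = 1 := by
    unfold Aw
    rw [← hqdef, ← pow_mul, ← pow_add]
    obtain ⟨a, ha⟩ := mod3_pow hq R
    obtain ⟨b, hb⟩ := mod3_pow hq r
    rw [ha, hb, Nat.mul_div_cancel_left a (by norm_num), Nat.mul_div_cancel_left b (by norm_num)]
    have hqR : q ^ R = 3 * a + 1 := by
      have := Nat.one_le_pow R q hq1
      omega
    have hqr : q ^ r = 3 * b + 1 := by
      have := Nat.one_le_pow r q hq1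
      omega
    have hqn1 := Nat.one_le_pow n q hq1
    obtain ⟨m, hm⟩ := mod3_pow hq n
    have hqn : q ^ n = 3 * m + 1 := by omega
    have h3n : q ^ (3 * n) = (3 * a + 1) * (3 * b + 1) := by
      rw [← hRr, pow_add, hqR, hqr]
    have h3n' : q ^ (3 * n) = (3 * m + 1) ^ 3 := by
      rw [mul_comm, pow_mul, hqn]
    have hexp : a * q ^ r + b = (3 * m) * (3 * m ^ 2 + 3 * m + 1) := by
      rw [hqr]
      have h5 : (3 * a + 1) * (3 * b + 1) = (3 * m + 1) ^ 3 := by rw [← h3n, h3n']
      have h6 : 3 * (a * (3 * b + 1) + b) + 1 = 3 * ((3 * m) * (3 * m ^ 2 + 3 * m + 1)) + 1 := by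
        calc 3 * (a * (3 * b + 1) + b) + 1 = (3 * a + 1) * (3 * b + 1) := by ring
          _ = (3 * m + 1) ^ 3 := h5
          _ = 3 * ((3 * m) * (3 * m ^ 2 + 3 * m + 1)) + 1 := by ring
      omega
    rw [hexp, pow_mul]
    have h7 : w ^ (3 * m) = 1 := by
      have h8 := FiniteField.pow_card_sub_one_eq_one w hw
      rw [hcard, hqn] at h8
      simpa using h8
    rw [h7, one_pow]
  set A := Aw F w r with hA
  set B := Aw F w R with hB
  have hA0 : A ≠ 0 := by
    intro h
    rw [h, mul_zero] at hprod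
    exact zero_ne_one hprod
  have hBr : B ^ (q ^ r) = A⁻¹ := eq_inv_of_mul_eq_one_left hprod
  have hodd : Odd (q ^ r) := by
    apply Odd.pow
    rw [Nat.odd_iff]
    omega
  have h1 : (1 + B + B ^ 2) ^ (q ^ r) = (1 + A + A ^ 2) * A⁻¹ ^ 2 := by
    rw [add_pow_card F K, add_pow_card F K, one_pow, ← pow_mul, mul_comm 2, pow_mul, hBr]
    field_simp
    ring
  have h2 : quadraticChar K (1 + B + B ^ 2) = quadraticChar K (1 + A + A ^ 2) := by
    rw [← qc_pow_odd (1 + B + B ^ 2) (q ^ r) hodd, h1, map_mul, quadraticChar_sq_one' (inv_ne_zero hA0),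
      mul_one]
  unfold ps
  rw [← hA, ← hB, h2]

end Pool.Agent.Work.ES
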